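import Pool.Agent.Helper92_SBG.Stmts

/-!
Module BFS of the squad SBG: a short element of `H` whose first coordinate generates all first
coordinates of `H`.
-/

set_option autoImplicit false

namespace Pool.Agent.SBG.H90

open Pool.Agent.SBG

/-- An increasing sequence of subsets of `[-N, N]` becomes stationary before `2 N`. -/
lemma stab (N : ℕ) (f : ℕ → Finset ℤ) (hmono : ∀ i, f i ⊆ f (i + 1))
    (hsub : ∀ i, f i ⊆ Finset.Icc (-(N : ℤ)) N) (h0 : (f 0).Nonempty) :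
    ∃ i, i ≤ 2 * N ∧ f (i + 1) = f i := by
  by_contra hcon
  push Not at hcon
  have key : ∀ i, i ≤ 2 * N + 1 → i + 1 ≤ (f i).card := by
    intro i
    induction i with
    | zero => intro _; exact Finset.card_pos.2 h0
    | succ i ih =>
      intro hi
      have h1 := ih (by omega)
      have h2 : f i ⊂ f (i + 1) :=
        Finset.ssubset_iff_subset_ne.2 ⟨hmono i, fun h => hcon i (by omega) h.symm⟩
      have h3 := Finset.card_lt_card h2
      omega
  have h1 := key (2 * N + 1) le_rfl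
  have h2 := Finset.card_le_card (hsub (2 * N + 1))
  rw [Int.card_Icc] at h2
  omega

/-- The Euclidean algorithm inside `[-N, N]`. -/
lemma euclid (N : ℤ) (P : ℤ → Prop) (hN : ∀ t, P t → |t| ≤ N) (hneg : ∀ t, P t → P (-t))
    (hadd : ∀ t u, P t → P u → |t + u| ≤ N → P (t + u)) (hne : ∃ t, P t ∧ t ≠ 0) :
    ∃ d, P d ∧ 0 < d ∧ ∀ t, P t → d ∣ t := by
  classical
  have hex : ∃ n : ℕ, 0 < n ∧ P n := by
    obtain ⟨t, ht, ht0⟩ := hne
    refine ⟨t.natAbs, Int.natAbs_pos.2 ht0, ?_⟩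
    rcases Int.natAbs_eq t with h | h
    · rw [← h]; exact ht
    · have h2 : ((t.natAbs : ℕ) : ℤ) = -t := by omega
      rw [h2]; exact hneg t ht
  have hd := Nat.find_spec hex
  have hmin : ∀ m : ℕ, 0 < m → P m → Nat.find hex ≤ m := fun m h1 h2 => Nat.find_min' hex ⟨h1, h2⟩
  generalize Nat.find hex = d at hd hmin
  have hnat : ∀ n : ℕ, P n → (d : ℤ) ∣ n := by
    intro n
    induction n using Nat.strong_induction_on with
    | _ n ih =>
      intro hn
      rcases Nat.eq_zero_or_pos n with h0 | h0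
      · subst h0; simp
      · have hle := hmin n h0 hn
        have hN' := hN _ hn
        have e : ((n - d : ℕ) : ℤ) = (n : ℤ) + -(d : ℤ) := by omega
        have h1 : P ((n - d : ℕ) : ℤ) := by
          rw [e]
          refine hadd _ _ hn (hneg _ hd.2) ?_
          rw [← e]
          rw [abs_of_nonneg (by positivity)] at hN' ⊢
          omega
        have h2 := ih (n - d) (by omega) h1
        rw [e] at h2
        have h3 := dvd_add h2 (dvd_refl (d : ℤ))
        rwa [neg_add_cancel_right] at h3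
  refine ⟨d, hd.2, by exact_mod_cast hd.1, ?_⟩
  intro t ht
  rcases Int.natAbs_eq t with h | h
  · have h1 := hnat t.natAbs (by rw [← h]; exact ht)
    rwa [← h] at h1
  · have h2 : ((t.natAbs : ℕ) : ℤ) = -t := by omega
    have h1 := hnat t.natAbs (by rw [h2]; exact hneg t ht)
    rw [h2] at h1
    exact (dvd_neg.1 h1)

variable {k : ℕ}

/-- Products of `i` elements of `S` all of whose prefixes have first coordinate in `[-N, N]`. -/
inductive Reach (S : Set (Gp k)) (N : ℤ) : ℕ → Gp k → Prop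
  | nil : Reach S N 0 1
  | step {i : ℕ} {g s : Gp k} : Reach S N i g → s ∈ S → |(g * s).m| ≤ N → Reach S N (i + 1) (g * s)

lemma Reach.abs_m {S : Set (Gp k)} {N : ℤ} (hN : 0 ≤ N) {i : ℕ} {g : Gp k}
    (h : Reach S N i g) : |g.m| ≤ N := by
  cases h with
  | nil => simpa using hN
  | step _ _ h3 => exact h3

lemma Reach.mem {S : Set (Gp k)} {N : ℤ} {H : Subgroup (Gp k)} (hS : ∀ s ∈ S, s ∈ H) {i : ℕ}
    {g : Gp k} (h : Reach S N i g) : g ∈ H := by
  induction h with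
  | nil => exact H.one_mem
  | step _ h2 _ ih => exact H.mul_mem ih (hS _ h2)

/-- Sizes along walks. -/
lemma Reach.size {S : Set (Gp k)} {n : ℕ} (hn : 1 ≤ n) (A K L : ℤ) (hA : 1 ≤ A) (hK : 0 ≤ K)
    (hL : 0 ≤ L)
    (h1 : ∀ s ∈ S, ∀ m : ℤ, |m| ≤ A * n → (∀ c : Ix k, |tp m s.x (Sum.inl c)| ≤
      K * (n : ℤ) ^ (wtI c)) ∧ ∀ j, |tp m s.x (Sum.inr j)| ≤ L * (n : ℤ) ^ 5)
    {i : ℕ} {g : Gp k} (h : Reach S (A * n) i g) :
    (∀ c : Ix k, |g.x (Sum.inl c)| ≤ (i * K) * (n : ℤ) ^ (wtI c)) ∧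
    ∀ j, |g.x (Sum.inr j)| ≤ (i * L + i * i * (16 * k * K * K)) * (n : ℤ) ^ 5 := by
  have hn1 : (1 : ℤ) ≤ n := by exact_mod_cast hn
  have hAn : 0 ≤ A * (n : ℤ) := by positivity
  induction h with
  | nil => exact ⟨fun c => by simp, fun j => by simp⟩
  | @step i g s hg hs _ ih =>
    obtain ⟨a1, a2⟩ := ih
    obtain ⟨b1, b2⟩ := h1 s hs g.m (hg.abs_m hAn)
    have hiK : 0 ≤ (i : ℤ) * K := by positivity
    have hB := bz_bound hn g.x (tp g.m s.x) (i * K) K hiK hK a1 b1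
    refine ⟨fun c => ?_, fun j => ?_⟩
    · have e : (g * s).x (Sum.inl c) = g.x (Sum.inl c) + tp g.m s.x (Sum.inl c) := by
        simp only [Gp.mul_x, Pi.add_apply, Bf, zin, Sum.elim_inl, Pi.zero_apply, add_zero]
      rw [e]
      refine (abs_add_le _ _).trans ?_
      have := a1 c
      have := b1 c
      push_cast
      linarith
    · have e : (g * s).x (Sum.inr j) = g.x (Sum.inr j) + tp g.m s.x (Sum.inr j)
          + bz g.x (tp g.m s.x) j := by
        simp only [Gp.mul_x, Pi.add_apply, Bf, zin, Sum.elim_inr]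
      rw [e]
      refine (abs_add_le _ _).trans ((add_le_add (abs_add_le _ _) le_rfl).trans ?_)
      have t1 := a2 j
      have t2 := b2 j
      have t3 := hB j
      have hp : 0 ≤ (16 * (k : ℤ) * K * K) * (n : ℤ) ^ 5 := by positivity
      have hi0 : (0 : ℤ) ≤ i := by positivity
      push_cast
      nlinarith [mul_nonneg hi0 hp]

theorem bfs : BfsStmt := by
  classical
  intro k A
  rcases Nat.eq_zero_or_pos A with hA0 | hApos
  · subst hA0
    refine ⟨0, fun n _ X hX hne => ?_⟩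
    obtain ⟨x, hx, hx0⟩ := hne
    have := (hX x hx).1
    simp only [Nat.cast_zero, zero_mul] at this
    exact absurd (abs_nonpos_iff.1 this) hx0
  have hA : (1 : ℤ) ≤ A := by exact_mod_cast hApos
  -- constants
  refine ⟨3 * A * (1600 * A ^ 7) + 3 * A * (A + 40 * A ^ 4 + 1600 * A ^ 7)
    + 144 * k * A ^ 2 * (1600 * A ^ 7) ^ 2, fun n hn X hX hne => ?_⟩
  have hn1 : (1 : ℤ) ≤ n := by exact_mod_cast hn
  have hn0 : (0 : ℤ) ≤ n := by linarith
  have hAn : 0 ≤ (A : ℤ) * (n : ℤ) := by positivity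
  have hA3 : (1 : ℤ) ≤ (A : ℤ) ^ 3 := one_le_pow₀ hA
  have hn45 : (n : ℤ) ^ 4 ≤ (n : ℤ) ^ 5 := pow_le_pow_right₀ hn1 (by norm_num)
  set S : Set (Gp k) := {s | s ∈ X ∨ s⁻¹ ∈ X} with hS
  have hSinv : ∀ s ∈ S, s⁻¹ ∈ S := by
    intro s hs
    rcases hs with h | h
    · right; rw [inv_inv]; exact h
    · left; exact h
  have hSm : ∀ s ∈ S, |s.m| ≤ A * n := by
    intro s hs
    rcases hs with h | h
    · exact (hX s h).1
    · have := (hX _ h).1
      rwa [Gp.inv_m, abs_neg] at this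
  have hSH : ∀ s ∈ S, s ∈ Subgroup.closure (X : Set (Gp k)) := by
    intro s hs
    rcases hs with h | h
    · exact Subgroup.subset_closure h
    · exact (Subgroup.inv_mem_iff _).1 (Subgroup.subset_closure h)
  -- sizes of the elements of `S`
  have hSx : ∀ s ∈ S, (∀ c : Ix k, |s.x (Sum.inl c)| ≤ (40 * A ^ 4) * (n : ℤ) ^ (wtI c)) ∧
      ∀ j, |s.x (Sum.inr j)| ≤ (A + 40 * A ^ 4) * (n : ℤ) ^ 5 := by
    intro s hs
    rcases hs with h | h
    · obtain ⟨h1, h2⟩ := hX s h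
      refine ⟨fun c => (h2 (Sum.inl c)).trans ?_, fun j => (h2 (Sum.inr j)).trans ?_⟩
      · refine mul_le_mul_of_nonneg_right ?_ (by positivity)
        have : (A : ℤ) * 1 ≤ A * A ^ 3 := mul_le_mul_of_nonneg_left hA3 (by linarith)
        have e : (A : ℤ) * A ^ 3 = A ^ 4 := by ring
        have : (0 : ℤ) ≤ A ^ 4 := by positivity
        linarith
      · refine mul_le_mul_of_nonneg_right ?_ (by positivity)
        have : (0 : ℤ) ≤ A ^ 4 := by positivity
        linarith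
    · obtain ⟨h1, h2⟩ := hX _ h
      have e : s.x = -tp s.m (s⁻¹).x := by
        have h3 : s = (s⁻¹)⁻¹ := (inv_inv s).symm
        have h4 : s.x = ((s⁻¹)⁻¹).x := by rw [inv_inv]
        rw [h4, Gp.inv_x]
        simp
      have h1' : |s.m| ≤ (A : ℤ) * n := by rwa [Gp.inv_m, abs_neg] at h1
      obtain ⟨t1, t2⟩ := tp_bound hn (s⁻¹).x A A (by linarith) hA (fun c => h2 (Sum.inl c)) s.m h1'
      refine ⟨fun c => ?_, fun j => ?_⟩
      · rw [e, Pi.neg_apply, abs_neg]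
        refine (t1 c).trans (le_of_eq ?_)
        ring
      · rw [e, Pi.neg_apply, abs_neg]
        refine (t2 j).trans ?_
        have h3 : |(s⁻¹).x (Sum.inr j)| ≤ A * (n : ℤ) ^ 5 := h2 (Sum.inr j)
        have h4 : 40 * (A : ℤ) ^ 3 * A * (n : ℤ) ^ 4 ≤ 40 * (A : ℤ) ^ 3 * A * (n : ℤ) ^ 5 :=
          mul_le_mul_of_nonneg_left hn45 (by positivity)
        have e2 : ((A : ℤ) + 40 * A ^ 4) * (n : ℤ) ^ 5 =
            A * (n : ℤ) ^ 5 + 40 * (A : ℤ) ^ 3 * A * (n : ℤ) ^ 5 := by ring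
        rw [e2]
        linarith
  have hStp : ∀ s ∈ S, ∀ m : ℤ, |m| ≤ A * n → (∀ c : Ix k, |tp m s.x (Sum.inl c)| ≤
      (1600 * A ^ 7) * (n : ℤ) ^ (wtI c)) ∧
      ∀ j, |tp m s.x (Sum.inr j)| ≤ (A + 40 * A ^ 4 + 1600 * A ^ 7) * (n : ℤ) ^ 5 := by
    intro s hs m hm
    obtain ⟨h1, h2⟩ := hSx s hs
    obtain ⟨t1, t2⟩ := tp_bound hn s.x (40 * A ^ 4) A (by positivity) hA h1 m hm
    refine ⟨fun c => (t1 c).trans (le_of_eq (by ring)), fun j => (t2 j).trans ?_⟩
    have h3 := h2 j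
    have h4 : 40 * (A : ℤ) ^ 3 * (40 * A ^ 4) * (n : ℤ) ^ 4 ≤
        40 * (A : ℤ) ^ 3 * (40 * A ^ 4) * (n : ℤ) ^ 5 :=
      mul_le_mul_of_nonneg_left hn45 (by positivity)
    have e2 : ((A : ℤ) + 40 * A ^ 4 + 1600 * A ^ 7) * (n : ℤ) ^ 5 =
        (A + 40 * A ^ 4) * (n : ℤ) ^ 5 + 40 * (A : ℤ) ^ 3 * (40 * A ^ 4) * (n : ℤ) ^ 5 := by ring
    rw [e2]
    linarith
  -- the reachable sets
  let f : ℕ → Finset ℤ := fun i =>
    (Finset.Icc (-((A * n : ℕ) : ℤ)) ((A * n : ℕ) : ℤ)).filter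
      (fun v => ∃ j, j ≤ i ∧ ∃ g : Gp k, Reach S (A * n) j g ∧ g.m = v)
  have hf : ∀ i v, v ∈ f i ↔ |v| ≤ A * n ∧
      ∃ j, j ≤ i ∧ ∃ g : Gp k, Reach S (A * n) j g ∧ g.m = v := by
    intro i v
    simp only [f, Finset.mem_filter, Finset.mem_Icc, ← abs_le]
    push_cast
    rfl
  obtain ⟨i, hi, hst⟩ := stab (A * n) f
    (fun i v hv => by
      rw [hf] at hv ⊢
      obtain ⟨h1, j, hj, g, hg, hgv⟩ := hv
      exact ⟨h1, j, hj.trans (Nat.le_succ i), g, hg, hgv⟩)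
    (fun i => Finset.filter_subset _ _)
    ⟨0, by rw [hf]; exact ⟨by simpa using hAn, 0, le_rfl, 1, Reach.nil, rfl⟩⟩
  have hclo : ∀ v ∈ f i, ∀ s ∈ S, |v + s.m| ≤ A * n → v + s.m ∈ f i := by
    intro v hv s hs hvs
    rw [← hst, hf]
    rw [hf] at hv
    obtain ⟨_, j, hj, g, hg, hgv⟩ := hv
    refine ⟨hvs, j + 1, by omega, g * s, Reach.step hg hs ?_, ?_⟩
    · rw [Gp.mul_m, hgv]; exact hvs
    · rw [Gp.mul_m, hgv]
  have h0 : (0 : ℤ) ∈ f i := by
    rw [hf]
    exact ⟨by simpa using hAn, 0, Nat.zero_le _, 1, Reach.nil, rfl⟩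
  -- the periods
  let P : ℤ → Prop := fun t => |t| ≤ A * n ∧
    ∀ v : ℤ, |v| ≤ A * n → |v + t| ≤ A * n → (v ∈ f i ↔ v + t ∈ f i)
  have hPS : ∀ s ∈ S, P s.m := by
    intro s hs
    refine ⟨hSm s hs, fun v hv hvs => ⟨fun h => hclo v h s hs hvs, fun h => ?_⟩⟩
    have h1 := hclo (v + s.m) h s⁻¹ (hSinv s hs) (by
      rw [Gp.inv_m, add_neg_cancel_right]; exact hv)
    rwa [Gp.inv_m, add_neg_cancel_right] at h1
  obtain ⟨d, hPd, hd0, hdvd⟩ := euclid (A * n) P (fun t ht => ht.1)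
    (fun t ht => ⟨by rw [abs_neg]; exact ht.1, fun v hv hvt => by
      have h1 := ht.2 (v + -t) hvt (by rw [neg_add_cancel_right]; exact hv)
      rw [neg_add_cancel_right] at h1
      exact h1.symm⟩)
    (fun t u ht hu htu => ⟨htu, fun v hv hvtu => by
      by_cases hvt : |v + t| ≤ A * n
      · rw [ht.2 v hv hvt, hu.2 (v + t) hvt (by rwa [add_assoc]), add_assoc]
      · have hvu : |v + u| ≤ A * n := by
          have a1 := ht.1
          have a2 := hu.1
          rw [abs_le] at a1 a2 hv hvtu ⊢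
          rw [abs_le] at hvt
          by_contra hcon
          rcases lt_or_ge 0 v with hv0 | hv0
          · have : ¬ (v + t ≤ A * n) := fun h => hvt ⟨by linarith, h⟩
            have : ¬ (v + u ≤ A * n) := fun h => hcon ⟨by linarith, h⟩
            push Not at *
            have b1 : 0 < t := by linarith [hv.2]
            have b2 : 0 < u := by linarith [hv.2]
            linarith [hvtu.2]
          · have : ¬ (-(A * n) ≤ v + t) := fun h => hvt ⟨h, by linarith⟩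
            have : ¬ (-(A * n) ≤ v + u) := fun h => hcon ⟨h, by linarith⟩
            push Not at *
            have b1 : t < 0 := by linarith [hv.1]
            have b2 : u < 0 := by linarith [hv.1]
            linarith [hvtu.1]
        have e : v + (t + u) = v + u + t := by ring
        rw [hu.2 v hv hvu, ht.2 (v + u) hvu (by rwa [← e]), e]⟩)
    (by
      obtain ⟨x, hx, hx0⟩ := hne
      exact ⟨x.m, hPS x (Or.inl hx), hx0⟩)
  have hdR : d ∈ f i := by
    have := (hPd.2 0 (by simpa using hAn) (by rw [zero_add]; exact hPd.1)).1 h0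
    rwa [zero_add] at this
  rw [hf] at hdR
  obtain ⟨hdN, j, hj, g, hg, hgd⟩ := hdR
  obtain ⟨s1, s2⟩ := hg.size hn (A : ℤ) (1600 * A ^ 7) (A + 40 * A ^ 4 + 1600 * A ^ 7) hA
    (by positivity) (by positivity) hStp
  have hjn : (j : ℤ) ≤ 3 * A * n := by
    have : j ≤ 2 * (A * n) := hj.trans hi
    have h2 : (j : ℤ) ≤ 2 * (A * n) := by exact_mod_cast this
    nlinarith
  have hj0 : (0 : ℤ) ≤ j := by positivity
  refine ⟨g, hg.mem hSH, by rw [hgd]; exact hd0, ?_, ?_, fun c => ?_, fun l => ?_⟩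
  · rw [hgd]; exact (le_abs_self d).trans hdN
  · intro x hx
    rw [hgd]
    exact hdvd _ (hPS x (Or.inl hx))
  · refine (s1 c).trans ?_
    have h1 : (j : ℤ) * (1600 * A ^ 7) * (n : ℤ) ^ (wtI c) ≤
        (3 * A * n) * (1600 * A ^ 7) * (n : ℤ) ^ (wtI c) := by
      refine mul_le_mul_of_nonneg_right ?_ (by positivity)
      exact mul_le_mul_of_nonneg_right hjn (by positivity)
    refine h1.trans ?_
    have h2 : (3 * (A : ℤ) * n) * (1600 * A ^ 7) * (n : ℤ) ^ (wtI c) =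
        (3 * A * (1600 * A ^ 7)) * (n : ℤ) ^ (wtI c + 1) := by ring
    rw [h2]
    refine mul_le_mul_of_nonneg_right ?_ (by positivity)
    push_cast
    have h3 : (0 : ℤ) ≤ 3 * A * (A + 40 * A ^ 4 + 1600 * A ^ 7) := by positivity
    have h4 : (0 : ℤ) ≤ 144 * k * A ^ 2 * (1600 * A ^ 7) ^ 2 := by positivity
    linarith
  · refine (s2 l).trans ?_
    have h1 : (j : ℤ) * (A + 40 * A ^ 4 + 1600 * A ^ 7) ≤
        (3 * A * n) * (A + 40 * A ^ 4 + 1600 * A ^ 7) :=
      mul_le_mul_of_nonneg_right hjn (by positivity)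
    have h2 : (j : ℤ) * j ≤ (3 * A * n) * (3 * A * n) := mul_le_mul hjn hjn hj0 (by positivity)
    have h3 : (j : ℤ) * j * (16 * k * (1600 * A ^ 7) * (1600 * A ^ 7)) ≤
        (3 * A * n) * (3 * A * n) * (16 * k * (1600 * A ^ 7) * (1600 * A ^ 7)) :=
      mul_le_mul_of_nonneg_right h2 (by positivity)
    have h4 : ((j : ℤ) * (A + 40 * A ^ 4 + 1600 * A ^ 7) +
        j * j * (16 * k * (1600 * A ^ 7) * (1600 * A ^ 7))) * (n : ℤ) ^ 5 ≤
        ((3 * A * n) * (A + 40 * A ^ 4 + 1600 * A ^ 7) +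
        (3 * A * n) * (3 * A * n) * (16 * k * (1600 * A ^ 7) * (1600 * A ^ 7))) * (n : ℤ) ^ 5 :=
      mul_le_mul_of_nonneg_right (by linarith) (by positivity)
    refine h4.trans ?_
    have hn67 : (n : ℤ) ^ 6 ≤ (n : ℤ) ^ 7 := pow_le_pow_right₀ hn1 (by norm_num)
    have e : ((3 * (A : ℤ) * n) * (A + 40 * A ^ 4 + 1600 * A ^ 7) +
        (3 * A * n) * (3 * A * n) * (16 * k * (1600 * A ^ 7) * (1600 * A ^ 7))) * (n : ℤ) ^ 5 =
        (3 * A * (A + 40 * A ^ 4 + 1600 * A ^ 7)) * (n : ℤ) ^ 6 +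
        (144 * k * A ^ 2 * (1600 * A ^ 7) ^ 2) * (n : ℤ) ^ 7 := by ring
    rw [e]
    have h5 : (3 * (A : ℤ) * (A + 40 * A ^ 4 + 1600 * A ^ 7)) * (n : ℤ) ^ 6 ≤
        (3 * (A : ℤ) * (A + 40 * A ^ 4 + 1600 * A ^ 7)) * (n : ℤ) ^ 7 :=
      mul_le_mul_of_nonneg_left hn67 (by positivity)
    have h6 : (0 : ℤ) ≤ (3 * A * (1600 * A ^ 7)) * (n : ℤ) ^ 7 := by positivity
    push_cast
    linarith

end Pool.Agent.SBG.H90
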